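import Mathlib

/-!
# The fractional walk-nonrepetitive chromatic number of paths

We determine `π_f^W(P_n)` for all paths with at least four edges: it is `3` for `n = 5` and `4` for
every `n ≥ 6`.
-/

namespace Pool.Agent.Results.MP_c566a2_co.PathValue

/-- `w_1, ..., w_k` (indexed by `Fin k`) is a walk in `G`: consecutive vertices are adjacent. -/
def IsWalkSeq {V : Type*} (G : SimpleGraph V) {k : ℕ} (w : Fin k → V) : Prop :=
  ∀ i j : Fin k, (i : ℕ) + 1 = j → G.Adj (w i) (w j)

/-- A sequence of length `2l` whose first half equals its second half.  Applied to colours this is a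
repetition, applied to the vertices of a walk it says that the walk is boring. -/
def IsRepetition {α : Type*} {l : ℕ} (a : Fin (2 * l) → α) : Prop :=
  ∀ i j : Fin (2 * l), (i : ℕ) + l = j → a i = a j

/-- `c` is a `p`-tuple walk-nonrepetitive `q`-colouring of `G`. -/
def IsWalkNonrepColouring {V : Type*} (G : SimpleGraph V) (p q : ℕ) (c : V → Finset (Fin q)) :
    Prop :=
  (∀ v, (c v).card = p) ∧
  ∀ l : ℕ, 1 ≤ l → ∀ w : Fin (2 * l) → V, IsWalkSeq G w → ¬ IsRepetition w →
    ∀ a : Fin (2 * l) → Fin q, (∀ i, a i ∈ c (w i)) → ¬ IsRepetition a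

/-- The fractional walk-nonrepetitive chromatic number. -/
noncomputable def fracWalkNonrep {V : Type*} (G : SimpleGraph V) : ℝ :=
  sInf {x : ℝ | ∃ p q : ℕ, 1 ≤ p ∧ p < q ∧
    (∃ c : V → Finset (Fin q), IsWalkNonrepColouring G p q c) ∧ x = (q : ℝ) / p}

/-! ### The Thue-Morse sequence -/

/-- The Thue-Morse sequence with values `0, 1`. -/
def tm (n : ℕ) : ℤ :=
  if h : n = 0 then 0 else if n % 2 = 0 then tm (n / 2) else 1 - tm (n / 2)
termination_by n
decreasing_by all_goals omega

lemma tm_even (n : ℕ) : tm (2 * n) = tm n := by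
  by_cases h : n = 0
  · subst h; rfl
  · rw [tm, dif_neg (by omega), if_pos (by omega)]
    congr 1; omega

lemma tm_odd (n : ℕ) : tm (2 * n + 1) = 1 - tm n := by
  rw [tm, dif_neg (by omega), if_neg (by omega)]
  congr 2; omega

lemma tm_val (n : ℕ) : tm n = 0 ∨ tm n = 1 := by
  induction n using Nat.strong_induction_on with
  | _ n ih =>
    rcases Nat.even_or_odd' n with ⟨k, rfl | rfl⟩
    · by_cases h : k = 0
      · subst h; left; rw [mul_zero, tm]; simp
      · rw [tm_even]; exact ih k (by omega)
    · rw [tm_odd]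
      rcases ih k (by omega) with h | h <;> rw [h] <;> simp

lemma tm_ne_succ (n : ℕ) : tm (2 * n) ≠ tm (2 * n + 1) := by
  rw [tm_even, tm_odd]
  rcases tm_val n with h | h <;> rw [h] <;> norm_num

/-- The Thue-Morse sequence is overlap-free. -/
lemma tm_overlap (m : ℕ) : 1 ≤ m → ∀ i : ℕ, ¬ ∀ k ≤ m, tm (i + k) = tm (i + k + m) := by
  induction m using Nat.strong_induction_on with
  | _ m ih =>
    intro hm i hov
    rcases Nat.even_or_odd' m with ⟨m', rfl | rfl⟩
    · rcases Nat.even_or_odd' i with ⟨i', rfl | rfl⟩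
      · refine ih m' (by omega) (by omega) i' fun k hk => ?_
        have := hov (2 * k) (by omega)
        rw [show 2 * i' + 2 * k = 2 * (i' + k) by ring,
          show 2 * (i' + k) + 2 * m' = 2 * (i' + k + m') by ring, tm_even, tm_even] at this
        exact this
      · refine ih m' (by omega) (by omega) i' fun k hk => ?_
        have := hov (2 * k) (by omega)
        rw [show 2 * i' + 1 + 2 * k = 2 * (i' + k) + 1 by ring,
          show 2 * (i' + k) + 1 + 2 * m' = 2 * (i' + k + m') + 1 by ring, tm_odd, tm_odd] at this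
        linarith
    · -- odd period: the sequence alternates on `[i, i + m]`
      have halt : ∀ k < 2 * m' + 1, tm (i + k) ≠ tm (i + k + 1) := by
        intro k hk heq
        rcases Nat.even_or_odd' (i + k) with ⟨a, ha | ha⟩
        · rw [ha] at heq
          exact tm_ne_succ a heq
        · have h1 := hov k (by omega)
          have h2 := hov (k + 1) (by omega)
          rw [show i + (k + 1) = i + k + 1 by ring, ← heq, h1] at h2
          have : i + k + (2 * m' + 1) = 2 * (a + m' + 1) := by omega
          rw [show i + k + 1 + (2 * m' + 1) = i + k + (2 * m' + 1) + 1 by ring, this] at h2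
          exact tm_ne_succ _ h2
      have hpar : ∀ k ≤ 2 * m' + 1, tm (i + k) = if k % 2 = 0 then tm i else 1 - tm i := by
        intro k
        induction k with
        | zero => intro _; simp
        | succ k ihk =>
          intro hk
          have h1 := ihk (by omega)
          have h2 := halt k (by omega)
          rw [show i + (k + 1) = i + k + 1 by ring]
          rw [h1] at h2
          rcases Nat.mod_two_eq_zero_or_one k with hk2 | hk2
          · rw [if_pos hk2] at h2
            rw [if_neg (by omega)]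
            rcases tm_val i with a | a <;> rcases tm_val (i + k + 1) with b | b <;>
              rw [a, b] at h2 ⊢ <;> simp at h2 ⊢
          · rw [if_neg (by omega)] at h2
            rw [if_pos (by omega)]
            rcases tm_val i with a | a <;> rcases tm_val (i + k + 1) with b | b <;>
              rw [a, b] at h2 ⊢ <;> simp at h2 ⊢
      have h1 := hpar (2 * m' + 1) le_rfl
      rw [if_neg (by omega)] at h1
      have h2 := hov 0 (by omega)
      rw [add_zero, h1] at h2
      rcases tm_val i with a | a <;> rw [a] at h2 <;> norm_num at h2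

/-- The ternary Thue word. -/
def tern (n : ℕ) : ℤ := tm (n + 1) - tm n

lemma tern_sqfree (m : ℕ) (hm : 1 ≤ m) (i : ℕ) : ∃ k < m, tern (i + k) ≠ tern (i + k + m) := by
  by_contra hcon
  push Not at hcon
  have htel : ∀ k ≤ m, tm (i + k) - tm i = tm (i + k + m) - tm (i + m) := by
    intro k
    induction k with
    | zero => intro _; simp
    | succ k ihk =>
      intro hk
      have h1 := ihk (by omega)
      have h2 := hcon k (by omega)
      unfold tern at h2
      rw [show i + k + m + 1 = i + (k + 1) + m by ring] at h2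
      rw [show i + k + 1 = i + (k + 1) by ring] at h2
      linarith
  have hm' := htel m le_rfl
  have heq : tm i = tm (i + m) := by
    rcases tm_val i with a | a <;> rcases tm_val (i + m) with b | b <;>
      rcases tm_val (i + m + m) with c | c <;> rw [a, b, c] at hm' <;> rw [a, b] <;>
      norm_num at hm'
  refine tm_overlap m hm i fun k hk => ?_
  have := htel k hk
  linarith

lemma tern_val (n : ℕ) : tern n = -1 ∨ tern n = 0 ∨ tern n = 1 := by
  unfold tern
  rcases tm_val n with a | a <;> rcases tm_val (n + 1) with b | b <;> rw [a, b] <;> norm_num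

lemma tern_ne_succ (n : ℕ) : tern n ≠ tern (n + 1) := by
  obtain ⟨k, hk, h⟩ := tern_sqfree 1 le_rfl n
  have : k = 0 := by omega
  subst this
  simpa using h

/-- The word on four letters `-1, 0, 1, 3`: a `3` is inserted after every second letter. -/
def word (n : ℕ) : ℤ := if n % 3 = 2 then 3 else tern (2 * (n / 3) + n % 3)

lemma word_zero (a : ℕ) : word (3 * a) = tern (2 * a) := by
  unfold word
  rw [if_neg (by omega)]
  congr 1; omega

lemma word_one (a : ℕ) : word (3 * a + 1) = tern (2 * a + 1) := by
  unfold word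
  rw [if_neg (by omega)]
  congr 1; omega

lemma word_two (a : ℕ) : word (3 * a + 2) = 3 := by
  unfold word
  rw [if_pos (by omega)]

lemma word_ne_three (n : ℕ) (hn : n % 3 ≠ 2) : word n ≠ 3 := by
  unfold word
  rw [if_neg hn]
  rcases tern_val (2 * (n / 3) + n % 3) with h | h | h <;> rw [h] <;> norm_num

lemma mod3 (n : ℕ) : ∃ a, n = 3 * a ∨ n = 3 * a + 1 ∨ n = 3 * a + 2 := ⟨n / 3, by omega⟩

lemma word_pal (n : ℕ) : word n ≠ word (n + 2) := by
  obtain ⟨a, rfl | rfl | rfl⟩ := mod3 n
  · rw [word_two]; exact word_ne_three _ (by omega)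
  · rw [word_one, show 3 * a + 1 + 2 = 3 * (a + 1) by ring, word_zero,
      show 2 * (a + 1) = 2 * a + 1 + 1 by ring]
    exact tern_ne_succ _
  · rw [word_two]; exact (word_ne_three _ (by omega)).symm

lemma word_psi (r : ℕ) : word (3 * (r / 2) + r % 2) = tern r := by
  rcases Nat.even_or_odd' r with ⟨a, rfl | rfl⟩
  · rw [show 3 * (2 * a / 2) + 2 * a % 2 = 3 * a by omega, word_zero]
  · rw [show 3 * ((2 * a + 1) / 2) + (2 * a + 1) % 2 = 3 * a + 1 by omega, word_one]

lemma word_sqfree (d : ℕ) (hd : 1 ≤ d) (i : ℕ) : ∃ k < d, word (i + k) ≠ word (i + k + d) := by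
  by_contra hcon
  push Not at hcon
  by_cases hd3 : d % 3 = 0
  · obtain ⟨e, rfl⟩ : ∃ e, d = 3 * e := ⟨d / 3, by omega⟩
    -- first index of the ternary word inside the window
    obtain ⟨j, hj⟩ : ∃ j, ∀ k < 2 * e, i ≤ 3 * ((j + k) / 2) + (j + k) % 2 ∧
        3 * ((j + k) / 2) + (j + k) % 2 < i + 3 * e := by
      obtain ⟨a, ha | ha | ha⟩ := mod3 i
      · exact ⟨2 * a, fun k hk => by omega⟩
      · exact ⟨2 * a + 1, fun k hk => by omega⟩
      · exact ⟨2 * a + 2, fun k hk => by omega⟩
    obtain ⟨k, hk, hne⟩ := tern_sqfree (2 * e) (by omega) j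
    apply hne
    obtain ⟨h1, h2⟩ := hj k hk
    have h3 := hcon (3 * ((j + k) / 2) + (j + k) % 2 - i) (by omega)
    rw [show i + (3 * ((j + k) / 2) + (j + k) % 2 - i) = 3 * ((j + k) / 2) + (j + k) % 2 by omega,
      show 3 * ((j + k) / 2) + (j + k) % 2 + 3 * e =
        3 * ((j + k + 2 * e) / 2) + (j + k + 2 * e) % 2 by omega, word_psi, word_psi] at h3
    exact h3
  · by_cases hd2 : 3 ≤ d
    · obtain ⟨k, hk, hk2⟩ : ∃ k < 3, (i + k) % 3 = 2 := by
        obtain ⟨a, ha | ha | ha⟩ := mod3 i
        · exact ⟨2, by omega, by omega⟩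
        · exact ⟨1, by omega, by omega⟩
        · exact ⟨0, by omega, by omega⟩
      have h1 := hcon k (by omega)
      have h2 : word (i + k) = 3 := by unfold word; rw [if_pos hk2]
      rw [h2] at h1
      exact word_ne_three _ (by omega) h1.symm
    · have hd12 : d = 1 ∨ d = 2 := by omega
      rcases hd12 with rfl | rfl
      · have h1 := hcon 0 (by omega)
        rw [add_zero] at h1
        obtain ⟨a, rfl | rfl | rfl⟩ := mod3 i
        · rw [word_zero, word_one] at h1
          exact tern_ne_succ _ h1
        · rw [word_two] at h1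
          exact word_ne_three _ (by omega) h1
        · rw [word_two] at h1
          exact word_ne_three _ (by omega) h1.symm
      · have h1 := hcon 0 (by omega)
        rw [add_zero] at h1
        exact word_pal _ h1

/-! ### Walks in a path -/

lemma ivt (z : ℕ → ℤ) (k : ℕ) (hz : ∀ i < k, z (i + 1) ≤ z i + 1) (t : ℤ) (h0 : z 0 ≤ t)
    (hk : t ≤ z k) : ∃ i ≤ k, z i = t := by
  induction k with
  | zero => exact ⟨0, le_rfl, le_antisymm h0 hk⟩
  | succ k ih =>
    by_cases h : t ≤ z k
    · obtain ⟨i, hi, hit⟩ := ih (fun i hi => hz i (by omega)) h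
      exact ⟨i, by omega, hit⟩
    · refine ⟨k + 1, le_rfl, ?_⟩
      have := hz k (by omega)
      omega

lemma ivt' (z : ℕ → ℤ) (k : ℕ) (hz : ∀ i < k, z i - 1 ≤ z (i + 1)) (t : ℤ) (h0 : t ≤ z 0)
    (hk : z k ≤ t) : ∃ i ≤ k, z i = t := by
  obtain ⟨i, hi, h⟩ := ivt (fun i => - z i) k (fun i hi => by have := hz i hi; omega) (-t)
    (by omega) (by omega)
  exact ⟨i, hi, by simpa using h⟩

/-- Walks in a path coloured by a square-free word without `aba`: only boring walks receive a
repetition. -/
lemma walk_boring {α : Type*} (n : ℤ) (u : ℤ → α)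
    (hsq : ∀ a d : ℤ, 1 ≤ d → 0 ≤ a → a + 2 * d ≤ n →
      ∃ k : ℤ, 0 ≤ k ∧ k < d ∧ u (a + k) ≠ u (a + k + d))
    (hpal : ∀ a : ℤ, 0 ≤ a → a + 2 < n → u a ≠ u (a + 2))
    (l : ℕ) (hl0ne : l ≠ 0) (w : ℕ → ℤ)
    (hw0 : ∀ i < 2 * l, 0 ≤ w i ∧ w i < n)
    (hw1 : ∀ i, i + 1 < 2 * l → w (i + 1) = w i + 1 ∨ w (i + 1) = w i - 1)
    (hrep : ∀ i < l, u (w i) = u (w (i + l))) :
    ∀ i < l, w i = w (i + l) := by
  -- equal colours force equality or distance at least three
  have hfar : ∀ a b : ℤ, 0 ≤ a → a < n → 0 ≤ b → b < n → u a = u b →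
      a = b ∨ a + 3 ≤ b ∨ b + 3 ≤ a := by
    intro a b ha0 han hb0 hbn hab
    by_contra hcon
    push Not at hcon
    obtain ⟨h1, h2, h3⟩ := hcon
    have h4 : b = a + 1 ∨ b = a + 2 ∨ a = b + 1 ∨ a = b + 2 := by omega
    rcases h4 with rfl | rfl | rfl | rfl
    · obtain ⟨k, hk0, hk1, hk⟩ := hsq a 1 le_rfl ha0 (by omega)
      have : k = 0 := by omega
      subst this
      simp at hk
      exact hk hab
    · exact hpal a ha0 hbn hab
    · obtain ⟨k, hk0, hk1, hk⟩ := hsq b 1 le_rfl hb0 (by omega)
      have : k = 0 := by omega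
      subst this
      simp at hk
      exact hk hab.symm
    · exact hpal b hb0 han hab.symm
  have hpair : ∀ i < l, w i = w (i + l) ∨ w i + 3 ≤ w (i + l) ∨ w (i + l) + 3 ≤ w i := by
    intro i hi
    exact hfar _ _ (hw0 i (by omega)).1 (hw0 i (by omega)).2 (hw0 (i + l) (by omega)).1
      (hw0 (i + l) (by omega)).2 (hrep i hi)
  have hstep1 : ∀ i, i + 1 < l → (w (i + 1) = w i + 1 ∨ w (i + 1) = w i - 1) :=
    fun i hi => hw1 i (by omega)
  have hstep2 : ∀ i, i + 1 < l → (w (i + 1 + l) = w (i + l) + 1 ∨ w (i + 1 + l) = w (i + l) - 1) := by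
    intro i hi
    have := hw1 (i + l) (by omega)
    rwa [show i + l + 1 = i + 1 + l by ring] at this
  -- trichotomy is constant along the walk
  have htri : (∀ i < l, w i = w (i + l)) ∨ (∀ i < l, w i + 3 ≤ w (i + l)) ∨
      (∀ i < l, w (i + l) + 3 ≤ w i) := by
    by_cases hl : l = 0
    · left; intro i hi; omega
    · rcases hpair 0 (by omega) with h0 | h0 | h0
      · left
        intro i
        induction i with
        | zero => intro _; exact h0
        | succ i ih =>
          intro hi
          have := ih (by omega)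
          rcases hpair (i + 1) hi with h | h | h <;> rcases hstep1 i hi with a | a <;>
            rcases hstep2 i hi with b | b <;> omega
      · right; left
        intro i
        induction i with
        | zero => intro _; exact h0
        | succ i ih =>
          intro hi
          have := ih (by omega)
          rcases hpair (i + 1) hi with h | h | h <;> rcases hstep1 i hi with a | a <;>
            rcases hstep2 i hi with b | b <;> omega
      · right; right
        intro i
        induction i with
        | zero => intro _; exact h0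
        | succ i ih =>
          intro hi
          have := ih (by omega)
          rcases hpair (i + 1) hi with h | h | h <;> rcases hstep1 i hi with a | a <;>
            rcases hstep2 i hi with b | b <;> omega
  rcases htri with h | hfarall
  · exact h
  exfalso
  rcases Nat.eq_zero_or_pos l with hl0 | hl
  · exact absurd hl0 hl0ne
  have hadj : w l = w (l - 1) + 1 ∨ w l = w (l - 1) - 1 := by
    have := hw1 (l - 1) (by omega)
    rwa [Nat.sub_add_cancel hl] at this
  -- turning points of the two halves correspond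
  have hturn : ∀ i, i + 2 < l → (w (i + 2) = w i ↔ w (i + 2 + l) = w (i + l)) := by
    intro i hi
    have h1 := hrep i (by omega)
    have h2 := hrep (i + 2) (by omega)
    have s1 := hstep1 i (by omega)
    have s2 := hstep1 (i + 1) (by omega)
    have s3 := hstep2 i (by omega)
    have s4 := hstep2 (i + 1) (by omega)
    rw [show i + 1 + 1 = i + 2 by ring] at s2 s4
    constructor
    · intro h
      rw [h] at h2
      have := hfar (w (i + l)) (w (i + 2 + l)) (hw0 _ (by omega)).1 (hw0 _ (by omega)).2
        (hw0 _ (by omega)).1 (hw0 _ (by omega)).2 (h1.symm.trans h2)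
      omega
    · intro h
      rw [h] at h2
      have := hfar (w i) (w (i + 2)) (hw0 _ (by omega)).1 (hw0 _ (by omega)).2
        (hw0 _ (by omega)).1 (hw0 _ (by omega)).2 (h1.trans h2.symm)
      omega
  have hdich : ∀ k, k ≤ l → (∀ i < k, w (i + l) - w i = w l - w 0) ∨
      (∀ i < k, w (i + l) + w i = w l + w 0) := by
    intro k
    induction k with
    | zero => intro _; left; intro i hi; omega
    | succ k ih =>
      intro hk
      rcases Nat.lt_or_ge k 2 with hk2 | hk2
      · have hk01 : k = 0 ∨ k = 1 := by omega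
        rcases hk01 with rfl | rfl
        · left; intro i hi
          have : i = 0 := by omega
          subst this; simp
        · have s1 := hstep1 0 (by omega)
          have s3 := hstep2 0 (by omega)
          rw [zero_add] at s1 s3
          rw [zero_add] at s3
          have hcase : w (1 + l) - w 1 = w l - w 0 ∨ w (1 + l) + w 1 = w l + w 0 := by omega
          rcases hcase with h | h
          · left; intro i hi
            have : i = 0 ∨ i = 1 := by omega
            rcases this with rfl | rfl
            · simp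
            · exact h
          · right; intro i hi
            have : i = 0 ∨ i = 1 := by omega
            rcases this with rfl | rfl
            · simp
            · exact h
      · obtain ⟨j, rfl⟩ : ∃ j, k = j + 2 := ⟨k - 2, by omega⟩
        have s1 := hstep1 j (by omega)
        have s2 := hstep1 (j + 1) (by omega)
        have s3 := hstep2 j (by omega)
        have s4 := hstep2 (j + 1) (by omega)
        have ht := hturn j (by omega)
        rw [show j + 1 + 1 = j + 2 by ring] at s2 s4
        rcases ih (by omega) with h | h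
        · left; intro i hi
          rcases Nat.lt_succ_iff_lt_or_eq.1 hi with hi' | rfl
          · exact h i hi'
          · have h0 := h j (by omega)
            have h1 := h (j + 1) (by omega)
            omega
        · right; intro i hi
          rcases Nat.lt_succ_iff_lt_or_eq.1 hi with hi' | rfl
          · exact h i hi'
          · have h0 := h j (by omega)
            have h1 := h (j + 1) (by omega)
            omega
  rcases hdich l le_rfl with hD | hS
  · rcases hfarall with hpos | hneg
    · -- positive constant difference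
      set D := w l - w 0 with hDdef
      have hD3 : 3 ≤ D := by have := hpos 0 hl; rw [zero_add] at this; omega
      have hiv : ∀ t, w 0 ≤ t → t ≤ w 0 + D - 1 → ∃ i ≤ l - 1, w i = t := by
        intro t h1 h2
        apply ivt w (l - 1) _ t h1 (by omega)
        intro i hi
        rcases hw1 i (by omega) with h | h <;> omega
      obtain ⟨i0, hi0, hwi0⟩ := hiv (w 0 + D - 1) (by omega) le_rfl
      have hy := hD i0 (by omega)
      have hyn := (hw0 (i0 + l) (by omega)).2
      obtain ⟨k, hk0, hk1, hk⟩ := hsq (w 0) D (by omega) (hw0 0 (by omega)).1 (by omega)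
      obtain ⟨i, hi, hwi⟩ := hiv (w 0 + k) (by omega) (by omega)
      apply hk
      rw [← hwi]
      have h3 := hD i (by omega)
      rw [show w i + D = w (i + l) by omega]
      exact hrep i (by omega)
    · -- negative constant difference
      set D := w l - w 0 with hDdef
      have hD3 : D ≤ -3 := by have := hneg 0 hl; rw [zero_add] at this; omega
      have hiv : ∀ t, t ≤ w 0 → w 0 + D + 1 ≤ t → ∃ i ≤ l - 1, w i = t := by
        intro t h1 h2
        apply ivt' w (l - 1) _ t h1 (by omega)
        intro i hi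
        rcases hw1 i (by omega) with h | h <;> omega
      obtain ⟨i0, hi0, hwi0⟩ := hiv (w 0 + D + 1) (by omega) le_rfl
      have hy := hD i0 (by omega)
      have hyn := (hw0 (i0 + l) (by omega)).1
      obtain ⟨k, hk0, hk1, hk⟩ := hsq (w 0 + 2 * D + 1) (-D) (by omega) (by omega)
        (by have := (hw0 0 (by omega)).2; omega)
      obtain ⟨i, hi, hwi⟩ := hiv (w 0 + 2 * D + 1 + k + (-D)) (by omega) (by omega)
      apply hk
      have h3 := hD i (by omega)
      rw [show w 0 + 2 * D + 1 + k = w (i + l) by omega,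
        show w (i + l) + -D = w i by omega]
      exact (hrep i (by omega)).symm
  · -- constant sum
    have h0 := hS (l - 1) (by omega)
    rcases hfarall with h | h
    · have h1 := h 0 hl
      have h2 := h (l - 1) (by omega)
      rw [zero_add] at h1
      omega
    · have h1 := h 0 hl
      have h2 := h (l - 1) (by omega)
      rw [zero_add] at h1
      omega

/-- A single-colour colouring from a square-free word without `aba`. -/
lemma colouring_of_word (n q : ℕ) (f : ℕ → Fin q)
    (hsq : ∀ a d : ℕ, 1 ≤ d → a + 2 * d ≤ n → ∃ k < d, f (a + k) ≠ f (a + k + d))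
    (hpal : ∀ a : ℕ, a + 2 < n → f a ≠ f (a + 2)) :
    IsWalkNonrepColouring (SimpleGraph.pathGraph n) 1 q (fun v => {f v}) := by
  refine ⟨fun v => Finset.card_singleton _, ?_⟩
  intro l hl w hw hboring a ha hrep
  apply hboring
  set u : ℤ → Fin q := fun z => f z.toNat with hu
  set w' : ℕ → ℤ := fun i => if h : i < 2 * l then ((w ⟨i, h⟩ : Fin n) : ℕ) else 0 with hw'
  have hw'v : ∀ i (h : i < 2 * l), w' i = ((w ⟨i, h⟩ : Fin n) : ℕ) := by
    intro i h
    simp only [hw', dif_pos h]
  have hmain := walk_boring (n : ℤ) u ?_ ?_ l (by omega) w' ?_ ?_ ?_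
  · intro i j hij
    have hil : (i : ℕ) < l := by have := j.2; omega
    have h1 := hmain i hil
    rw [hw'v i i.2, hw'v (i + l) (by rw [hij]; exact j.2)] at h1
    have h2 : w ⟨(i : ℕ) + l, by rw [hij]; exact j.2⟩ = w j := by
      congr 1; exact Fin.ext hij
    rw [h2] at h1
    apply Fin.ext
    exact_mod_cast h1
  · intro b d hd hb hbd
    obtain ⟨k, hk, hne⟩ := hsq b.toNat d.toNat (by omega) (by omega)
    refine ⟨k, by omega, by omega, ?_⟩
    simp only [hu]
    rw [show (b + (k : ℤ)).toNat = b.toNat + k by omega,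
      show (b + (k : ℤ) + d).toNat = b.toNat + k + d.toNat by omega]
    exact hne
  · intro b hb hbn
    simp only [hu]
    rw [show (b + 2).toNat = b.toNat + 2 by omega]
    exact hpal _ (by omega)
  · intro i hi
    rw [hw'v i hi]
    have := (w ⟨i, hi⟩).2
    constructor
    · positivity
    · exact_mod_cast this
  · intro i hi
    rw [hw'v i (by omega), hw'v (i + 1) hi]
    have := hw ⟨i, by omega⟩ ⟨i + 1, hi⟩ rfl
    rw [SimpleGraph.pathGraph_adj] at this
    rcases this with h | h
    · left; rw [← h]; push_cast; ring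
    · right; rw [← h]; push_cast; ring
  · intro i hi
    rw [hw'v i (by omega), hw'v (i + l) (by omega)]
    have h1 := hrep ⟨i, by omega⟩ ⟨i + l, by omega⟩ rfl
    have h2 := ha ⟨i, by omega⟩
    have h3 := ha ⟨i + l, by omega⟩
    rw [Finset.mem_singleton] at h2 h3
    simp only [hu, Int.toNat_natCast]
    rw [← h2, ← h3, h1]

/-- Letters of the word, coded in `Fin 4`. -/
def code (z : ℤ) : Fin 4 := if z = -1 then 0 else if z = 0 then 1 else if z = 1 then 2 else 3

lemma word_val (n : ℕ) : word n = -1 ∨ word n = 0 ∨ word n = 1 ∨ word n = 3 := by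
  unfold word
  split_ifs with h
  · simp
  · rcases tern_val (2 * (n / 3) + n % 3) with h | h | h <;> rw [h] <;> simp

lemma code_inj (a b : ℕ) (h : code (word a) = code (word b)) : word a = word b := by
  rcases word_val a with h1 | h1 | h1 | h1 <;> rcases word_val b with h2 | h2 | h2 | h2 <;>
    rw [h1, h2] at h ⊢ <;> revert h <;> decide

/-! ### Lower bounds -/

lemma disj_one {n p q : ℕ} {c : Fin n → Finset (Fin q)}
    (hc : IsWalkNonrepColouring (SimpleGraph.pathGraph n) p q c) (i : ℕ) (hi : i + 1 < n) :
    Disjoint (c ⟨i, by omega⟩) (c ⟨i + 1, hi⟩) := by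
  rw [Finset.disjoint_left]
  intro x hx hx'
  refine hc.2 1 le_rfl (fun j => ⟨i + j, by have := j.2; omega⟩) ?_ ?_ (fun _ => x) ?_ ?_
  · intro j k hjk
    rw [SimpleGraph.pathGraph_adj]
    left; simp only; omega
  · intro h
    have := h 0 1 rfl
    simp at this
  · intro j
    have : j = 0 ∨ j = 1 := by
      have := j.2
      rcases Nat.lt_or_ge j 1 with h | h
      · left; apply Fin.ext; simp; omega
      · right; apply Fin.ext; simp; omega
    rcases this with rfl | rfl
    · exact hx
    · exact hx'
  · intro j k _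
    rfl

lemma disj_two {n p q : ℕ} (hp : 1 ≤ p) {c : Fin n → Finset (Fin q)}
    (hc : IsWalkNonrepColouring (SimpleGraph.pathGraph n) p q c) (i : ℕ) (hi : i + 2 < n) :
    Disjoint (c ⟨i, by omega⟩) (c ⟨i + 2, hi⟩) := by
  rw [Finset.disjoint_left]
  intro x hx hx'
  obtain ⟨y, hy⟩ : (c ⟨i + 1, by omega⟩).Nonempty := by
    rw [← Finset.card_pos, hc.1]; exact hp
  have h4 : ∀ j : Fin (2 * 2), (j : ℕ) = 0 ∨ (j : ℕ) = 1 ∨ (j : ℕ) = 2 ∨ (j : ℕ) = 3 := by
    intro j; have := j.2; omega
  refine hc.2 2 (by omega) (fun j => ⟨i + (if (j : ℕ) = 3 then 1 else (j : ℕ)), by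
    have := h4 j; split_ifs <;> omega⟩) ?_ ?_
    (fun j => if (j : ℕ) % 2 = 0 then x else y) ?_ ?_
  · intro j k hjk
    rw [SimpleGraph.pathGraph_adj]
    simp only
    have := h4 j
    have := h4 k
    split_ifs <;> omega
  · intro h
    have := h ⟨0, by omega⟩ ⟨2, by omega⟩ rfl
    simp at this
  · intro j
    rcases h4 j with h | h | h | h
    · simp only [h]; simpa using hx
    · simp only [h]; simpa using hy
    · simp only [h]; simpa using hx'
    · simp only [h]; simpa using hy
  · intro j k hjk
    simp only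
    have : (j : ℕ) % 2 = (k : ℕ) % 2 := by omega
    rw [this]

lemma three_le {n p q : ℕ} (hn : 3 ≤ n) (hp : 1 ≤ p) {c : Fin n → Finset (Fin q)}
    (hc : IsWalkNonrepColouring (SimpleGraph.pathGraph n) p q c) : 3 * p ≤ q := by
  have h01 := disj_one hc 0 (by omega)
  have h12 := disj_one hc 1 (by omega)
  have h02 := disj_two hp hc 0 (by omega)
  have hcard : (c ⟨0, by omega⟩ ∪ c ⟨1, by omega⟩ ∪ c ⟨2, by omega⟩).card = 3 * p := by
    rw [Finset.card_union_of_disjoint (Finset.disjoint_union_left.2 ⟨h02, h12⟩),
      Finset.card_union_of_disjoint h01, hc.1, hc.1, hc.1]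
    ring
  calc 3 * p = _ := hcard.symm
    _ ≤ Fintype.card (Fin q) := Finset.card_le_univ _
    _ = q := Fintype.card_fin q

lemma meet_three {n p q : ℕ} (hp : 1 ≤ p) {c : Fin n → Finset (Fin q)}
    (hc : IsWalkNonrepColouring (SimpleGraph.pathGraph n) p q c) (hq : q < 4 * p) (i : ℕ)
    (hi : i + 3 < n) : ∃ x, x ∈ c ⟨i, by omega⟩ ∧ x ∈ c ⟨i + 3, hi⟩ := by
  by_contra hcon
  push Not at hcon
  have h03 : Disjoint (c ⟨i, by omega⟩) (c ⟨i + 3, hi⟩) := Finset.disjoint_left.2 hcon
  have h01 := disj_one hc i (by omega)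
  have h12 := disj_one hc (i + 1) (by omega)
  have h23 := disj_one hc (i + 2) (by omega)
  have h02 := disj_two hp hc i (by omega)
  have h13 := disj_two hp hc (i + 1) (by omega)
  have hcard : (c ⟨i, by omega⟩ ∪ c ⟨i + 1, by omega⟩ ∪ c ⟨i + 2, by omega⟩ ∪
      c ⟨i + 3, hi⟩).card = 4 * p := by
    rw [Finset.card_union_of_disjoint (Finset.disjoint_union_left.2
        ⟨Finset.disjoint_union_left.2 ⟨h03, h13⟩, h23⟩),
      Finset.card_union_of_disjoint (Finset.disjoint_union_left.2 ⟨h02, h12⟩),
      Finset.card_union_of_disjoint h01, hc.1, hc.1, hc.1, hc.1]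
    ring
  have : 4 * p ≤ q := by
    calc 4 * p = _ := hcard.symm
      _ ≤ Fintype.card (Fin q) := Finset.card_le_univ _
      _ = q := Fintype.card_fin q
  omega

lemma four_le {n p q : ℕ} (hn : 6 ≤ n) (hp : 1 ≤ p) {c : Fin n → Finset (Fin q)}
    (hc : IsWalkNonrepColouring (SimpleGraph.pathGraph n) p q c) : 4 * p ≤ q := by
  by_contra hq
  push Not at hq
  obtain ⟨x, hx, hx'⟩ := meet_three hp hc hq 0 (by omega)
  obtain ⟨y, hy, hy'⟩ := meet_three hp hc hq 1 (by omega)
  obtain ⟨z, hz, hz'⟩ := meet_three hp hc hq 2 (by omega)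
  have h6 : ∀ j : Fin (2 * 3), (j : ℕ) = 0 ∨ (j : ℕ) = 1 ∨ (j : ℕ) = 2 ∨ (j : ℕ) = 3 ∨
      (j : ℕ) = 4 ∨ (j : ℕ) = 5 := by
    intro j; have := j.2; omega
  refine hc.2 3 (by omega) (fun j => ⟨j, by have := j.2; omega⟩) ?_ ?_
    (fun j => if (j : ℕ) % 3 = 0 then x else if (j : ℕ) % 3 = 1 then y else z) ?_ ?_
  · intro j k hjk
    rw [SimpleGraph.pathGraph_adj]
    left; exact hjk
  · intro h
    have := h ⟨0, by omega⟩ ⟨3, by omega⟩ rfl
    simp at this
  · intro j
    rcases h6 j with h | h | h | h | h | h
    · simp only [h]; simpa using hx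
    · simp only [h]; simpa using hy
    · simp only [h]; simpa using hz
    · simp only [h]; simpa using hx'
    · simp only [h]; simpa using hy'
    · simp only [h]; simpa using hz'
  · intro j k hjk
    simp only
    have : (j : ℕ) % 3 = (k : ℕ) % 3 := by omega
    rw [this]

/-- **The fractional walk-nonrepetitive chromatic number of paths with at least four edges.**
It equals `3` for the path on five vertices and `4` for all longer paths. -/
theorem result (n : ℕ) (hn : 5 ≤ n) :
    fracWalkNonrep (SimpleGraph.pathGraph n) = if n = 5 then 3 else 4 := by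
  have hbdd : BddBelow {x : ℝ | ∃ p q : ℕ, 1 ≤ p ∧ p < q ∧
      (∃ c : Fin n → Finset (Fin q),
        IsWalkNonrepColouring (SimpleGraph.pathGraph n) p q c) ∧ x = (q : ℝ) / p} := by
    refine ⟨0, ?_⟩
    rintro x ⟨p, q, _, _, _, rfl⟩
    positivity
  unfold fracWalkNonrep
  split_ifs with h5
  · subst h5
    have hmem : (3 : ℝ) ∈ {x : ℝ | ∃ p q : ℕ, 1 ≤ p ∧ p < q ∧
        (∃ c : Fin 5 → Finset (Fin q),
          IsWalkNonrepColouring (SimpleGraph.pathGraph 5) p q c) ∧ x = (q : ℝ) / p} := by
      refine ⟨1, 3, le_rfl, by norm_num, ⟨_, colouring_of_word 5 3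
        (fun a => ⟨a % 3, Nat.mod_lt _ (by norm_num)⟩) ?_ ?_⟩, by norm_num⟩
      · intro a d hd had
        refine ⟨0, by omega, ?_⟩
        intro h
        have := congrArg Fin.val h
        simp only at this
        omega
      · intro a _ h
        have := congrArg Fin.val h
        simp only at this
        omega
    apply le_antisymm
    · exact csInf_le hbdd hmem
    · apply le_csInf ⟨_, hmem⟩
      rintro x ⟨p, q, hp, _, ⟨c, hc⟩, rfl⟩
      have h := three_le (by norm_num) hp hc
      have hp' : (0 : ℝ) < p := by exact_mod_cast hp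
      rw [le_div_iff₀ hp']
      exact_mod_cast h
  · have hmem : (4 : ℝ) ∈ {x : ℝ | ∃ p q : ℕ, 1 ≤ p ∧ p < q ∧
        (∃ c : Fin n → Finset (Fin q),
          IsWalkNonrepColouring (SimpleGraph.pathGraph n) p q c) ∧ x = (q : ℝ) / p} := by
      refine ⟨1, 4, le_rfl, by norm_num, ⟨_, colouring_of_word n 4
        (fun a => code (word a)) ?_ ?_⟩, by norm_num⟩
      · intro a d hd _
        obtain ⟨k, hk, hne⟩ := word_sqfree d hd a
        exact ⟨k, hk, fun h => hne (code_inj _ _ h)⟩
      · intro a _ h
        exact word_pal a (code_inj _ _ h)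
    apply le_antisymm
    · exact csInf_le hbdd hmem
    · apply le_csInf ⟨_, hmem⟩
      rintro x ⟨p, q, hp, _, ⟨c, hc⟩, rfl⟩
      have h := four_le (by omega) hp hc
      have hp' : (0 : ℝ) < p := by exact_mod_cast hp
      rw [le_div_iff₀ hp']
      exact_mod_cast h

end Pool.Agent.Results.MP_c566a2_co.PathValue
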